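import Pool.Agent.Helper70.GB.Types

open Set MeasureTheory Filter Topology

namespace GB

namespace A5a

lemma round_pos {α : ℝ} (hα : Irrational α) (k : ℤ) (hk : k ≠ 0) (u : ℤ) : 0 < |k * α - u| := by
  rw [abs_pos, sub_ne_zero]
  intro h
  have h1 : Irrational ((k : ℝ) * α) := hα.intCast_mul hk
  exact h1.ne_int u h

end A5a

theorem exists_gap (α : ℝ) (hα : Irrational α) (ε : ℝ) (hε : 0 < ε) :
    ∃ (g : ℕ) (w : ℝ), 1 ≤ g ∧ 0 < w ∧ 8 * w < ε ∧ 1 ≤ 32 * (g : ℝ) * w ∧
      ∀ a : ℤ, a ≠ 0 → |a| ≤ g → ∀ u : ℤ, 4 * w ≤ |a * α - u| := by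
  obtain ⟨N0, hN0⟩ := exists_nat_gt (1 / (4 * ε))
  let f : ℕ → ℝ := fun k => |(k : ℝ) * α - round ((k : ℝ) * α)|
  have hfpos : ∀ k : ℕ, 1 ≤ k → 0 < f k := by
    intro k hk
    have := A5a.round_pos hα (k : ℤ) (by omega) (round ((k : ℝ) * α))
    simpa [f] using this
  obtain ⟨q0, hq0, hmin⟩ := Finset.exists_min_image (Finset.Icc 1 (N0 + 1)) f ⟨1, by simp⟩
  rw [Finset.mem_Icc] at hq0
  have hμ : 0 < f q0 := hfpos q0 hq0.1
  have hex : ∃ k : ℕ, 0 < k ∧ f k < f q0 := by
    obtain ⟨n, hn⟩ := exists_nat_gt (1 / f q0)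
    have hn0 : 0 < n := by
      rcases Nat.eq_zero_or_pos n with h | h
      · rw [h] at hn
        have : 0 < 1 / f q0 := by positivity
        simp at hn
        linarith
      · exact h
    obtain ⟨k, hk1, hk2, hk3⟩ := Real.exists_nat_abs_mul_sub_round_le α hn0
    refine ⟨k, hk1, lt_of_le_of_lt hk3 ?_⟩
    have hn0' : (0 : ℝ) < n := by exact_mod_cast hn0
    rw [div_lt_iff₀ (by positivity)]
    rw [div_lt_iff₀ hμ] at hn
    nlinarith
  classical
  let q1 := Nat.find hex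
  obtain ⟨hq1pos, hq1⟩ : 0 < q1 ∧ f q1 < f q0 := Nat.find_spec hex
  have hq1min : ∀ k : ℕ, 0 < k → k < q1 → f q0 ≤ f k := by
    intro k hk hk'
    by_contra hcon
    exact Nat.find_min hex hk' ⟨hk, not_le.1 hcon⟩
  have hq1N : N0 + 1 < q1 := by
    by_contra hcon
    have := hmin q1 (Finset.mem_Icc.2 ⟨hq1pos, not_lt.1 hcon⟩)
    linarith
  have hg1 : 1 ≤ q1 - 1 := by omega
  have hgR : ((q1 - 1 : ℕ) : ℝ) = q1 - 1 := by push_cast [Nat.cast_sub (show 1 ≤ q1 by omega)]; ring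
  have hgpos : (0 : ℝ) < ((q1 - 1 : ℕ) : ℝ) := by exact_mod_cast hg1
  -- the determinant
  have hdet : (1 : ℝ) ≤ (2 * ((q1 - 1 : ℕ) : ℝ) + 1) * f q0 := by
    set p0 := round ((q0 : ℝ) * α) with hp0
    set p1 := round ((q1 : ℝ) * α) with hp1
    have hD : (q0 : ℤ) * p1 - q1 * p0 ≠ 0 := by
      intro h
      have h1 : (q0 : ℝ) * p1 = q1 * p0 := by
        have : (q0 : ℤ) * p1 = q1 * p0 := by linarith
        exact_mod_cast this
      have h2 : (q0 : ℝ) * ((q1 : ℝ) * α - p1) = q1 * ((q0 : ℝ) * α - p0) := by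
        linear_combination -h1
      have h3 := congrArg abs h2
      rw [abs_mul, abs_mul, Nat.abs_cast, Nat.abs_cast] at h3
      have h4 : (q0 : ℝ) * f q1 = q1 * f q0 := h3
      have h5 : (q0 : ℝ) ≤ q1 := by exact_mod_cast (by omega : q0 ≤ q1)
      have h6 : (0 : ℝ) < q0 := by exact_mod_cast (by omega : 0 < q0)
      nlinarith
    have h1 : (1 : ℝ) ≤ |(((q0 : ℤ) * p1 - q1 * p0 : ℤ) : ℝ)| := by
      have := Int.one_le_abs hD
      rw [← Int.cast_abs]
      exact_mod_cast this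
    have h2 : (((q0 : ℤ) * p1 - q1 * p0 : ℤ) : ℝ) =
        q1 * ((q0 : ℝ) * α - p0) - q0 * ((q1 : ℝ) * α - p1) := by
      push_cast; ring
    rw [h2] at h1
    have h3 : |(q1 : ℝ) * ((q0 : ℝ) * α - p0) - q0 * ((q1 : ℝ) * α - p1)| ≤
        q1 * f q0 + q0 * f q1 := by
      refine (abs_sub _ _).trans ?_
      rw [abs_mul, abs_mul, Nat.abs_cast, Nat.abs_cast]
    have h5 : (q0 : ℝ) ≤ ((q1 - 1 : ℕ) : ℝ) := by exact_mod_cast (by omega : q0 ≤ q1 - 1)
    have h6 : (0 : ℝ) ≤ q0 := by positivity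
    rw [hgR] at h5 ⊢
    nlinarith [hfpos q1 hq1pos]
  refine ⟨q1 - 1, 1 / (32 * ((q1 - 1 : ℕ) : ℝ)), hg1, by positivity, ?_, ?_, ?_⟩
  · have h1 : (N0 : ℝ) ≤ ((q1 - 1 : ℕ) : ℝ) := by exact_mod_cast (by omega : N0 ≤ q1 - 1)
    have h2 : 1 / (4 * ε) < ((q1 - 1 : ℕ) : ℝ) := lt_of_lt_of_le hN0 h1
    rw [div_lt_iff₀ (by positivity)] at h2
    rw [mul_one_div, div_lt_iff₀ (by positivity)]
    nlinarith
  · have : 32 * ((q1 - 1 : ℕ) : ℝ) * (1 / (32 * ((q1 - 1 : ℕ) : ℝ))) = 1 := by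
      field_simp
    rw [this]
  · intro a ha hag u
    have key : ∀ k : ℕ, 1 ≤ k → k ≤ q1 - 1 → ∀ u : ℤ,
        4 * (1 / (32 * ((q1 - 1 : ℕ) : ℝ))) ≤ |(k : ℝ) * α - u| := by
      intro k hk1 hk2 u
      have h1 : f q0 ≤ f k := hq1min k (by omega) (by omega)
      have h2 : f k ≤ |(k : ℝ) * α - u| := round_le _ _
      have h3 : 4 * (1 / (32 * ((q1 - 1 : ℕ) : ℝ))) ≤ f q0 := by
        rw [mul_one_div, div_le_iff₀ (by positivity)]
        have : (1 : ℝ) ≤ ((q1 - 1 : ℕ) : ℝ) := by exact_mod_cast hg1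
        nlinarith
      linarith
    have hag' : a.natAbs ≤ q1 - 1 := by
      have : ((a.natAbs : ℕ) : ℤ) ≤ ((q1 - 1 : ℕ) : ℤ) := by
        rw [Int.natCast_natAbs]; exact hag
      exact_mod_cast this
    rcases lt_or_gt_of_ne ha with h | h
    · have h1 := key a.natAbs (by omega) hag' (-u)
      have h2 : ((a.natAbs : ℕ) : ℝ) = -(a : ℝ) := by
        have : ((a.natAbs : ℕ) : ℤ) = -a := by omega
        have h3 := congrArg (fun x : ℤ => (x : ℝ)) this
        simpa only [Int.cast_natCast, Int.cast_neg] using h3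
      rw [h2] at h1
      push_cast at h1
      rw [show -(a : ℝ) * α - -(u : ℝ) = -((a : ℝ) * α - u) by ring, abs_neg] at h1
      exact h1
    · have h1 := key a.natAbs (by omega) hag' u
      have h2 : ((a.natAbs : ℕ) : ℝ) = (a : ℝ) := by
        have : ((a.natAbs : ℕ) : ℤ) = a := by omega
        have h3 := congrArg (fun x : ℤ => (x : ℝ)) this
        simpa only [Int.cast_natCast] using h3
      rw [h2] at h1
      exact h1

theorem exists_cover (α : ℝ) (hα : Irrational α) (c d : ℝ) (hcd : c < d) :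
    ∃ T : ℕ, ∀ x : ℝ, ∃ a : ℕ, a < T ∧ ∃ k : ℤ, x + a * α + k ∈ Ioo c d := by
  -- a small step
  obtain ⟨n, hn⟩ := exists_nat_gt (1 / (d - c))
  have hdc : 0 < d - c := by linarith
  have hn0 : 0 < n := by
    rcases Nat.eq_zero_or_pos n with h | h
    · rw [h] at hn
      have : 0 < 1 / (d - c) := by positivity
      simp at hn
      linarith
    · exact h
  obtain ⟨q, hq1, hq2, hq3⟩ := Real.exists_nat_abs_mul_sub_round_le α hn0
  set p := round ((q : ℝ) * α) with hp
  set β := (q : ℝ) * α - p with hβ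
  have hβ0 : 0 < |β| := by
    have := A5a.round_pos hα (q : ℤ) (by omega) p
    simpa [hβ] using this
  have hβ1 : |β| < d - c := by
    refine lt_of_le_of_lt hq3 ?_
    have hn0' : (0 : ℝ) < n := by exact_mod_cast hn0
    rw [div_lt_iff₀ (by positivity)]
    rw [div_lt_iff₀ hdc] at hn
    nlinarith
  -- number of steps
  obtain ⟨L, hL⟩ := exists_nat_gt (1 / |β|)
  refine ⟨q * (L + 2), fun x => ?_⟩
  have main : ∃ (m : ℕ) (k : ℤ), m ≤ L + 1 ∧ x + k + m * β ∈ Ioo c d := by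
    rw [div_lt_iff₀ hβ0] at hL
    rcases lt_or_ge 0 β with hpos | hneg
    · rw [abs_of_pos hpos] at *
      let k := ⌊c - x⌋
      have h1 : (k : ℝ) ≤ c - x := Int.floor_le _
      have h2 : c - x < k + 1 := Int.lt_floor_add_one _
      let m := ⌊(c - (x + k)) / β⌋₊
      have h3 : 0 ≤ (c - (x + k)) / β := div_nonneg (by linarith) hpos.le
      have h4 : (m : ℝ) ≤ (c - (x + k)) / β := Nat.floor_le h3
      have h5 : (c - (x + k)) / β < m + 1 := Nat.lt_floor_add_one _
      rw [le_div_iff₀ hpos] at h4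
      rw [div_lt_iff₀ hpos] at h5
      refine ⟨m + 1, k, ?_, ?_, ?_⟩
      · have : (m : ℝ) < L := by
          by_contra hcon
          push Not at hcon
          have : (L : ℝ) * β ≤ m * β := mul_le_mul_of_nonneg_right hcon hpos.le
          linarith
        have : m < L := by exact_mod_cast this
        omega
      · push_cast; linarith
      · push_cast; linarith
    · have hneg' : β < 0 := lt_of_le_of_ne hneg (by rw [← abs_pos]; exact hβ0)
      rw [abs_of_neg hneg'] at *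
      let k := ⌈d - x⌉
      have h1 : d - x ≤ (k : ℝ) := Int.le_ceil _
      have h2 : (k : ℝ) < d - x + 1 := Int.ceil_lt_add_one _
      let m := ⌊(x + k - d) / (-β)⌋₊
      have hp' : 0 < -β := by linarith
      have h3 : 0 ≤ (x + k - d) / (-β) := div_nonneg (by linarith) hp'.le
      have h4 : (m : ℝ) ≤ (x + k - d) / (-β) := Nat.floor_le h3
      have h5 : (x + k - d) / (-β) < m + 1 := Nat.lt_floor_add_one _
      rw [le_div_iff₀ hp'] at h4
      rw [div_lt_iff₀ hp'] at h5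
      refine ⟨m + 1, k, ?_, ?_, ?_⟩
      · have : (m : ℝ) < L := by
          by_contra hcon
          push Not at hcon
          have : (L : ℝ) * (-β) ≤ m * (-β) := mul_le_mul_of_nonneg_right hcon hp'.le
          linarith
        have : m < L := by exact_mod_cast this
        omega
      · push_cast; linarith
      · push_cast; linarith
  obtain ⟨m, k, hm, hmem⟩ := main
  refine ⟨q * m, ?_, k - m * p, ?_⟩
  · exact Nat.mul_lt_mul_of_pos_left (by omega) hq1
  · have : x + ((q * m : ℕ) : ℝ) * α + ((k - m * p : ℤ) : ℝ) = x + k + m * β := by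
      rw [hβ]; push_cast; ring
    rw [this]
    exact hmem

theorem QIndep.irrational {a₁ a₂ : ℝ} (hα : QIndep a₁ a₂) : Irrational a₁ ∧ Irrational a₂ := by
  constructor
  · rintro ⟨r, hr⟩
    have h := hα ((r.den : ℤ), 0) r.num (by
      simp only [Lf]
      push_cast
      rw [← hr]
      have := Rat.mul_den_eq_num r
      have h2 : (r : ℝ) * (r.den : ℝ) = (r.num : ℝ) := by exact_mod_cast this
      linarith)
    have h1 := congrArg Prod.fst h
    simp at h1
  · rintro ⟨r, hr⟩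
    have h := hα (0, (r.den : ℤ)) r.num (by
      simp only [Lf]
      push_cast
      rw [← hr]
      have := Rat.mul_den_eq_num r
      have h2 : (r : ℝ) * (r.den : ℝ) = (r.num : ℝ) := by exact_mod_cast this
      linarith)
    have h1 := congrArg Prod.snd h
    simp at h1

theorem exists_qindep : QIndep (Real.sqrt 2) (Real.sqrt 3) := by
  have h2 : Irrational (Real.sqrt 2) := irrational_sqrt_two
  have h3 : Irrational (Real.sqrt 3) := Nat.prime_three.irrational_sqrt
  have h6 : Irrational (Real.sqrt 6) := by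
    rw [irrational_sqrt_ofNat_iff]
    rintro ⟨r, hr⟩
    have h1 : r ≤ 2 := by
      by_contra hcon
      push Not at hcon
      nlinarith
    interval_cases r <;> omega
  intro v k hk
  obtain ⟨x, y⟩ := v
  simp only [Lf] at hk
  have s2 : Real.sqrt 2 ^ 2 = 2 := Real.sq_sqrt (by norm_num)
  have s3 : Real.sqrt 3 ^ 2 = 3 := Real.sq_sqrt (by norm_num)
  have s6 : Real.sqrt 2 * Real.sqrt 3 = Real.sqrt 6 := by
    rw [← Real.sqrt_mul (by norm_num)]; norm_num
  by_cases hx : x = 0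
  · subst hx
    by_cases hy : y = 0
    · subst hy; rfl
    · exfalso
      have : Irrational ((y : ℝ) * Real.sqrt 3) := h3.intCast_mul hy
      apply this.ne_int k
      simpa using hk
  · by_cases hy : y = 0
    · exfalso
      subst hy
      have : Irrational ((x : ℝ) * Real.sqrt 2) := h2.intCast_mul hx
      apply this.ne_int k
      simpa using hk
    · exfalso
      have h4 : Irrational (((2 * x * y : ℤ) : ℝ) * Real.sqrt 6) :=
        h6.intCast_mul (by positivity)
      apply h4.ne_int (k ^ 2 - 2 * x ^ 2 - 3 * y ^ 2)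
      push_cast
      rw [← hk, ← s6]
      ring_nf
      rw [s2, s3]
      ring

/-- Lattice vectors are bounded away from `0` modulo `1`. -/
theorem exists_Lf_sep (a₁ a₂ : ℝ) (hα : QIndep a₁ a₂) (S : ℕ) :
    ∃ δ > 0, ∀ v : ℤ × ℤ, v ≠ 0 → InSq S v → ∀ u : ℤ, δ ≤ |Lf a₁ a₂ v - u| := by
  let s : Finset (ℤ × ℤ) := (Finset.Icc (-(S : ℤ)) S ×ˢ Finset.Icc (-(S : ℤ)) S).erase 0
  have hs : ∀ v : ℤ × ℤ, v ≠ 0 → InSq S v → v ∈ s := by
    intro v hv hS
    obtain ⟨h1, h2⟩ := hS
    rw [abs_le] at h1 h2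
    simp [s, hv, h1, h2]
  rcases s.eq_empty_or_nonempty with he | hne
  · refine ⟨1, one_pos, fun v hv hS => ?_⟩
    have := hs v hv hS
    rw [he] at this
    simp at this
  · obtain ⟨v0, hv0, hmin⟩ := Finset.exists_min_image s
      (fun v => |Lf a₁ a₂ v - round (Lf a₁ a₂ v)|) hne
    refine ⟨|Lf a₁ a₂ v0 - round (Lf a₁ a₂ v0)|, ?_, ?_⟩
    · rw [gt_iff_lt, abs_pos, sub_ne_zero]
      intro h
      have h1 := hα v0 _ h
      simp [s, h1] at hv0
    · intro v hv hS u
      exact (hmin v (hs v hv hS)).trans (round_le _ _)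

end GB
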